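import Pool.Agent.Helper37_BSig.Stmts

/-!
# Modules CardStmt and CardDelta
-/

namespace Pool.Agent.BSig

open Filter Cardinal

namespace H87

theorem rep_injective : Function.Injective rep := by
  intro x y h
  rw [← mk_rep x, ← mk_rep y, mk_eq, h]
  exact Eventually.of_forall fun _ => rfl

theorem card_MM_le : #MM ≤ continuum := by
  have h : #MM ≤ #(ℕ → ℕ) := mk_le_of_injective rep_injective
  have h2 : #(ℕ → ℕ) = continuum := by
    rw [← Cardinal.power_def, Cardinal.mk_nat, Cardinal.aleph0_power_aleph0]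
  rw [← h2]; exact h

theorem exists_infl : ∃ ν : MM, Infl ν := by
  have hb : Bdd (fun n => n) := ⟨0, Eventually.of_forall fun n => by simp only [tow]; omega⟩
  refine ⟨mk (fun n => n) hb, fun n => ?_⟩
  rw [natCast_mk, mk_lt]
  filter_upwards [eventually_ge (n + 1)] with m hm
  omega

theorem card_lt {ν : MM} (hν : Infl ν) : continuum ≤ #{x : MM | x < ν} := by
  obtain ⟨f, hf, rfl⟩ := exists_mk ν
  have hfin : ∀ N : ℕ, ∀ᶠ n in (UU : Filter ℕ), N ≤ Nat.log 2 (f n) := by
    intro N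
    have h1 := hν (2 ^ N)
    rw [natCast_mk, mk_lt] at h1
    filter_upwards [h1] with n hn
    exact Nat.le_log_of_pow_le (by norm_num) hn.le
  let g : Set ℕ → ℕ → ℕ := fun X n => ncode (Nat.log 2 (f n)) (· ∈ X)
  have hg1 : ∀ X, ∀ᶠ n in (UU : Filter ℕ), g X n < f n := by
    intro X
    filter_upwards [hfin 1] with n hn
    have h0 : f n ≠ 0 := by
      intro h; rw [h] at hn; simp at hn
    exact (ncode_lt _ _).trans_le (Nat.pow_log_le_self 2 h0)
  have hgb : ∀ X, Bdd (g X) := fun X => bdd_of_le hf ((hg1 X).mono fun n h => h.le)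
  let F : Set ℕ → {x : MM | x < mk f hf} := fun X => ⟨mk (g X) (hgb X), by
    show mk (g X) (hgb X) < mk f hf
    rw [mk_lt]; exact hg1 X⟩
  have hF : Function.Injective F := by
    intro X Y h
    have h1 : mk (g X) (hgb X) = mk (g Y) (hgb Y) := congrArg Subtype.val h
    rw [mk_eq] at h1
    ext m
    obtain ⟨n, hn1, hn2⟩ := (h1.and (hfin (m + 1))).exists
    have h3 : (g X n).testBit m = (g Y n).testBit m := by rw [hn1]
    have h4 : (g X n).testBit m = true ↔ m ∈ X := by
      rw [testBit_ncode]; constructor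
      · exact fun h => h.2
      · exact fun h => ⟨by omega, h⟩
    have h5 : (g Y n).testBit m = true ↔ m ∈ Y := by
      rw [testBit_ncode]; constructor
      · exact fun h => h.2
      · exact fun h => ⟨by omega, h⟩
    rw [← h4, ← h5, h3]
  have h1 : #(Set ℕ) ≤ #{x : MM | x < mk f hf} := mk_le_of_injective hF
  rwa [Cardinal.mk_set, Cardinal.mk_nat, Cardinal.two_power_aleph0] at h1

theorem cardStmt_proof : CardStmt := by
  have h2 : ∀ ν : MM, Infl ν → #{x : MM | x < ν} = continuum := fun ν hν =>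
    le_antisymm ((mk_set_le _).trans card_MM_le) (card_lt hν)
  refine ⟨le_antisymm card_MM_le ?_, h2⟩
  obtain ⟨ν, hν⟩ := exists_infl
  exact (card_lt hν).trans (mk_set_le _)

/-! ## Syntax -/

/-- Constructors of terms. -/
inductive TA : Type
  | param (c : MM)
  | var (i : ℕ)
  | add
  | mul
  | pow

/-- Arities. -/
def TB : TA → ℕ
  | .param _ => 0
  | .var _ => 0
  | .add => 2
  | .mul => 2
  | .pow => 1

/-- Terms. -/
abbrev TW : Type := WType (fun a : TA => Fin (TB a))

/-- Evaluation step for terms. -/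
noncomputable def tstep : (Σ a : TA, Fin (TB a) → (∀ k : ℕ, (Fin k → MM) → MM)) →
    ∀ k : ℕ, (Fin k → MM) → MM
  | ⟨.param c, _⟩ => fun _ _ => c
  | ⟨.var i, _⟩ => fun k v => if h : i < k then v ⟨i, h⟩ else 0
  | ⟨.add, s⟩ => fun k v => s (0 : Fin 2) k v + s (1 : Fin 2) k v
  | ⟨.mul, s⟩ => fun k v => s (0 : Fin 2) k v * s (1 : Fin 2) k v
  | ⟨.pow, s⟩ => fun k v => pow2 (s (0 : Fin 1) k v)

/-- Evaluation of terms. -/
noncomputable def evT (w : TW) : ∀ k : ℕ, (Fin k → MM) → MM := WType.elim _ tstep w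

theorem evT_mk (a : TA) (s : Fin (TB a) → TW) : evT (WType.mk a s) = tstep ⟨a, fun b => evT (s b)⟩ :=
  rfl

theorem exists_evT {k : ℕ} {f : (Fin k → MM) → MM} (h : IsTerm f) : ∃ w : TW, evT w k = f := by
  induction h with
  | param c => exact ⟨WType.mk (.param c) Fin.elim0, rfl⟩
  | var i =>
    refine ⟨WType.mk (.var i) Fin.elim0, ?_⟩
    funext v
    show (if h : (i : ℕ) < _ then v ⟨i, h⟩ else 0) = v i
    rw [dif_pos i.2]
  | add _ _ ih1 ih2 =>
    obtain ⟨w1, h1⟩ := ih1; obtain ⟨w2, h2⟩ := ih2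
    refine ⟨WType.mk .add (fun b : Fin 2 => if b = 0 then w1 else w2), ?_⟩
    funext v
    show evT w1 _ v + evT w2 _ v = _
    rw [h1, h2]
  | mul _ _ ih1 ih2 =>
    obtain ⟨w1, h1⟩ := ih1; obtain ⟨w2, h2⟩ := ih2
    refine ⟨WType.mk .mul (fun b : Fin 2 => if b = 0 then w1 else w2), ?_⟩
    funext v
    show evT w1 _ v * evT w2 _ v = _
    rw [h1, h2]
  | pow2 _ ih =>
    obtain ⟨w, h⟩ := ih
    refine ⟨WType.mk .pow (fun _ => w), ?_⟩
    funext v
    show pow2 (evT w _ v) = _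
    rw [h]

/-- Constructors of formulas. -/
inductive FA : Type
  | eq (a b : TW)
  | le (a b : TW)
  | not
  | and
  | ball (a : TW)

/-- Arities. -/
def FB : FA → ℕ
  | .eq _ _ => 0
  | .le _ _ => 0
  | .not => 1
  | .and => 2
  | .ball _ => 1

/-- Formulas. -/
abbrev FW : Type := WType (fun a : FA => Fin (FB a))

/-- Evaluation step for formulas. -/
noncomputable def fstep : (Σ a : FA, Fin (FB a) → (∀ k : ℕ, (Fin k → MM) → Prop)) →
    ∀ k : ℕ, (Fin k → MM) → Prop
  | ⟨.eq a b, _⟩ => fun k v => evT a k v = evT b k v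
  | ⟨.le a b, _⟩ => fun k v => evT a k v ≤ evT b k v
  | ⟨.not, s⟩ => fun k v => ¬ s (0 : Fin 1) k v
  | ⟨.and, s⟩ => fun k v => s (0 : Fin 2) k v ∧ s (1 : Fin 2) k v
  | ⟨.ball a, s⟩ => fun k v => ∀ x, x ≤ evT a k v → s (0 : Fin 1) (k + 1) (Fin.cons x v)

/-- Evaluation of formulas. -/
noncomputable def evF (w : FW) : ∀ k : ℕ, (Fin k → MM) → Prop := WType.elim _ fstep w

theorem exists_evF {k : ℕ} {f : (Fin k → MM) → Prop} (h : IsDelta0 f) : ∃ w : FW, evF w k = f := by
  induction h with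
  | eq h1 h2 =>
    obtain ⟨w1, h1⟩ := exists_evT h1; obtain ⟨w2, h2⟩ := exists_evT h2
    refine ⟨WType.mk (.eq w1 w2) Fin.elim0, ?_⟩
    funext v
    show (evT w1 _ v = evT w2 _ v) = _
    rw [h1, h2]
  | le h1 h2 =>
    obtain ⟨w1, h1⟩ := exists_evT h1; obtain ⟨w2, h2⟩ := exists_evT h2
    refine ⟨WType.mk (.le w1 w2) Fin.elim0, ?_⟩
    funext v
    show (evT w1 _ v ≤ evT w2 _ v) = _
    rw [h1, h2]
  | not _ ih =>
    obtain ⟨w, h⟩ := ih
    refine ⟨WType.mk .not (fun _ => w), ?_⟩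
    funext v
    show (¬ (evF w _ v)) = _
    rw [h]
  | and _ _ ih1 ih2 =>
    obtain ⟨w1, h1⟩ := ih1; obtain ⟨w2, h2⟩ := ih2
    refine ⟨WType.mk .and (fun b : Fin 2 => if b = 0 then w1 else w2), ?_⟩
    funext v
    show (evF w1 _ v ∧ evF w2 _ v) = _
    rw [h1, h2]
  | ball hf _ ih =>
    obtain ⟨w1, h1⟩ := exists_evT hf; obtain ⟨w2, h2⟩ := ih
    refine ⟨WType.mk (.ball w1) (fun _ => w2), ?_⟩
    funext v
    show (∀ x, x ≤ evT w1 _ v → evF w2 _ (Fin.cons x v)) = _
    rw [h1, h2]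

theorem card_TA : #TA ≤ continuum := by
  let F : TA → MM ⊕ (ℕ ⊕ Fin 3) := fun a => match a with
    | .param c => Sum.inl c
    | .var i => Sum.inr (Sum.inl i)
    | .add => Sum.inr (Sum.inr 0)
    | .mul => Sum.inr (Sum.inr 1)
    | .pow => Sum.inr (Sum.inr 2)
  have hF : Function.Injective F := by
    rintro (c | i | _ | _ | _) (c' | i' | _ | _ | _) h <;> simp_all [F]
  refine (mk_le_of_injective hF).trans ?_
  rw [mk_sum, mk_sum]
  simp only [lift_id, mk_nat, mk_fin]
  exact add_le_of_le aleph0_le_continuum card_MM_le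
    (add_le_of_le aleph0_le_continuum aleph0_le_continuum (nat_lt_continuum 3).le)

theorem card_TW : #TW ≤ continuum :=
  (WType.cardinalMk_le_max_aleph0_of_finite).trans (max_le card_TA aleph0_le_continuum)

theorem card_FA : #FA ≤ continuum := by
  let F : FA → (TW × TW) ⊕ ((TW × TW) ⊕ (TW ⊕ Fin 2)) := fun a => match a with
    | .eq a b => Sum.inl (a, b)
    | .le a b => Sum.inr (Sum.inl (a, b))
    | .ball a => Sum.inr (Sum.inr (Sum.inl a))
    | .not => Sum.inr (Sum.inr (Sum.inr 0))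
    | .and => Sum.inr (Sum.inr (Sum.inr 1))
  have hF : Function.Injective F := by
    rintro (⟨a, b⟩ | ⟨a, b⟩ | _ | _ | a) (⟨a', b'⟩ | ⟨a', b'⟩ | _ | _ | a') h <;> simp_all [F]
  refine (mk_le_of_injective hF).trans ?_
  rw [mk_sum, mk_sum, mk_sum, mk_prod]
  simp only [lift_id, mk_fin]
  have h2 : #TW * #TW ≤ continuum := by
    calc #TW * #TW ≤ continuum * continuum := mul_le_mul' card_TW card_TW
      _ = continuum := continuum_mul_self
  exact add_le_of_le aleph0_le_continuum h2 (add_le_of_le aleph0_le_continuum h2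
    (add_le_of_le aleph0_le_continuum card_TW (nat_lt_continuum 2).le))

theorem card_FW : #FW ≤ continuum :=
  (WType.cardinalMk_le_max_aleph0_of_finite).trans (max_le card_FA aleph0_le_continuum)

theorem cardDelta_proof : CardDelta := by
  have h : ∀ φ : {φ : (Fin 5 → MM) → Prop // IsDelta0 φ}, ∃ w : FW, evF w 5 = φ.1 :=
    fun φ => exists_evF φ.2
  choose F hF using h
  have hinj : Function.Injective F := by
    intro φ ψ hφψ
    apply Subtype.ext
    rw [← hF φ, ← hF ψ, hφψ]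
  exact (mk_le_of_injective hinj).trans card_FW

end H87

end Pool.Agent.BSig
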