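import Pool.Agent.Helper37_BSig.Stmts

/-!
# Module SigmaLemma
-/

namespace Pool.Agent.BSig

open Filter Cardinal

namespace H87

theorem infl_of_not_omega {x : MM} (h : x ∉ omega MM) : Infl x := by
  by_contra hc
  obtain ⟨k, rfl⟩ := not_infl_iff.1 hc
  exact h ⟨k, rfl⟩

theorem not_omega_of_infl {x : MM} (h : Infl x) : x ∉ omega MM := by
  rintro ⟨k, rfl⟩
  exact lt_irrefl _ (h k)

theorem Infl.mono {x y : MM} (h : Infl x) (hxy : x ≤ y) : Infl y := fun n => (h n).trans_le hxy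

theorem not_mem_zero (x : MM) : ¬ Mem x 0 := fun h => absurd (mem_lt h) (not_lt.2 (PAExp.zero_le' x))

theorem zero_ne_one_MM : (0 : MM) ≠ 1 := PAExp.zero_ne_one'

/-- least upper bound of an `M`-finite set. -/
theorem exists_max (K : MM) : ∃ n, (∀ x, Mem x K → x ≤ n) ∧ (n = 0 ∨ Mem n K) := by
  have h : Int1 (fun n => ∀ x, x ≤ K → Mem x K → x ≤ n) := by
    apply Int1.of_delta0
    refine IsDelta0.all (IsTerm.param K) ?_
    exact (IsDelta0.mem (IsTerm.var 0) (IsTerm.param K)).imp (IsDelta0.le (IsTerm.var 0) (IsTerm.var 1))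
  obtain ⟨n, hn, hmin⟩ := h.least ⟨K, fun x hx _ => hx⟩
  refine ⟨n, fun x hx => hn x (mem_lt hx).le hx, ?_⟩
  by_contra hc
  push Not at hc
  obtain ⟨h0, h1⟩ := hc
  have hpos : 0 < n := lt_of_le_of_ne (PAExp.zero_le' n) (Ne.symm h0)
  have h01 : (0 : MM) + 1 ≤ n := (PAExp.discrete _ _).1 hpos
  obtain ⟨m, hm⟩ := PAExp.exists_add ((0 : MM) + 1) n h01
  rw [zero_add] at hm
  have hmn : m < n := by rw [← hm, add_comm]; exact (PAExp.discrete _ _).2 le_rfl
  refine absurd (hmin m ?_) (not_le.2 hmn)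
  intro x hx hxK
  have hxn : x < n := lt_of_le_of_ne (hn x hx hxK) (by rintro rfl; exact h1 hxK)
  by_contra hxm
  rw [not_le] at hxm
  have := (PAExp.discrete _ _).1 hxm
  rw [add_comm m 1, hm] at this
  exact absurd hxn (not_lt.2 this)

theorem exists_min (K : MM) (hK : ∃ x, Mem x K) : ∃ n, (∀ x, Mem x K → n ≤ x) ∧ Mem n K := by
  have h : Int1 (fun n => Mem n K) :=
    Int1.of_delta0 (IsDelta0.mem (IsTerm.var 0) (IsTerm.param K))
  obtain ⟨n, hn, hmin⟩ := h.least hK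
  exact ⟨n, hmin, hn⟩

/-- The relation reducing the standard part. -/
def PhiS (S : MM) (v : Fin 4 → MM) : Prop :=
  (v 1 = 1 ∧ ∃ n T z, TowOK T ∧ Mem (pr n z) T ∧ ∀ x, x ≤ v 0 → Mem x (v 0) → x ≤ n) ∨
  (v 1 = 0 ∧ ((∀ x, x ≤ v 0 → ¬ Mem x (v 0)) ∨ ∃ y z, (∀ x, x ≤ v 0 → Mem x (v 0) → y ≤ x) ∧
    ((Mem (pr y (2 * z + 1)) S ∧ Mem z (v 3)) ∨ (Mem (pr y (2 * z)) S ∧ Mem z (v 2)))))

theorem PhiS_sigma (S : MM) : IsSigma 1 (PhiS S) := by
  apply Sig1.isSigma
  have h2 : ∀ {m : ℕ} {f : (Fin m → MM) → MM}, IsTerm f → IsTerm (fun v => 2 * f v) :=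
    fun h => (IsTerm.param 2).mul h
  have h21 : ∀ {m : ℕ} {f : (Fin m → MM) → MM}, IsTerm f → IsTerm (fun v => 2 * f v + 1) :=
    fun h => (h2 h).add (IsTerm.param 1)
  refine Sig1.or (Sig1.and (Sig1.of_delta0 (IsDelta0.eq (IsTerm.var 1) (IsTerm.param 1))) ?_)
    (Sig1.and (Sig1.of_delta0 (IsDelta0.eq (IsTerm.var 1) (IsTerm.param 0))) (Sig1.or ?_ ?_))
  · refine Sig1.ex ?_
    refine Sig1.ex ?_
    refine Sig1.ex ?_
    apply Sig1.of_delta0
    -- 0 = z, 1 = T, 2 = n, 3 = v 0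
    refine (IsDelta0.towOK (IsTerm.var 1)).and ((IsDelta0.mem (IsTerm.pr (IsTerm.var 2) (IsTerm.var 0))
      (IsTerm.var 1)).and ?_)
    refine IsDelta0.all (IsTerm.var 3) ?_
    exact (IsDelta0.mem (IsTerm.var 0) (IsTerm.var 4)).imp (IsDelta0.le (IsTerm.var 0) (IsTerm.var 3))
  · apply Sig1.of_delta0
    refine IsDelta0.all (IsTerm.var 0) ?_
    exact (IsDelta0.mem (IsTerm.var 0) (IsTerm.var 1)).not
  · refine Sig1.ex ?_
    refine Sig1.ex ?_
    apply Sig1.of_delta0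
    -- 0 = z, 1 = y, 2 = v 0, 4 = v 2, 5 = v 3
    refine IsDelta0.and ?_ (IsDelta0.or ?_ ?_)
    · refine IsDelta0.all (IsTerm.var 2) ?_
      exact (IsDelta0.mem (IsTerm.var 0) (IsTerm.var 3)).imp
        (IsDelta0.le (IsTerm.var 2) (IsTerm.var 0))
    · exact (IsDelta0.mem (IsTerm.pr (IsTerm.var 1) (h21 (IsTerm.var 0))) (IsTerm.param S)).and
        (IsDelta0.mem (IsTerm.var 0) (IsTerm.var 5))
    · exact (IsDelta0.mem (IsTerm.pr (IsTerm.var 1) (h2 (IsTerm.var 0))) (IsTerm.param S)).and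
        (IsDelta0.mem (IsTerm.var 0) (IsTerm.var 4))

theorem sigmaLemma_proof (hO : OmegaBasics) : SigmaLemma := by
  intro X hX S hS
  by_contra hcon
  push Not at hcon
  apply hX
  -- every infinite `e` has a false literal below it
  have hfalse : ∀ e, Infl e → ∃ y ≤ e, ∃ z, (Mem (pr y (2 * z + 1)) S ∧ z ∉ X) ∨
      (Mem (pr y (2 * z)) S ∧ z ∈ X) := by
    intro e he
    obtain ⟨y, hy, z, hz⟩ := hcon e he
    refine ⟨y, hy, z, ?_⟩
    by_cases h1 : Mem (pr y (2 * z + 1)) S ∧ z ∉ X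
    · exact Or.inl h1
    · right
      apply hz
      intro h2
      by_contra h3
      exact h1 ⟨h2, h3⟩
  have hinf : ∀ y z, ((Mem (pr y (2 * z + 1)) S ∧ z ∉ X) ∨ (Mem (pr y (2 * z)) S ∧ z ∈ X)) →
      Infl y := by
    intro y z h
    by_contra hc
    obtain ⟨k, rfl⟩ := not_infl_iff.1 hc
    rcases h with ⟨h1, h2⟩ | ⟨h1, h2⟩
    · exact h2 ((hS k z).1 h1)
    · exact (hS k z).2 h1 h2
  refine ⟨PhiS S, PhiS_sigma S, ?_⟩
  intro K i hi
  constructor
  · intro hK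
    rcases hi with rfl | rfl
    · -- i = 0
      by_cases hne : ∃ x, Mem x K
      · obtain ⟨k, hk1, hk2⟩ := exists_min K hne
        have hk : Infl k := by
          apply infl_of_not_omega
          rcases hK hk2 with ⟨h, _⟩ | ⟨_, h⟩
          · exact absurd h zero_ne_one_MM
          · exact h
        obtain ⟨y, hy, z, hz⟩ := hfalse k hk
        obtain ⟨s, hs⟩ := exists_code_finset {z}
        have hs' : ∀ x, Mem x s ↔ x = z := fun x => by rw [hs]; simp
        rcases hz with ⟨h1, h2⟩ | ⟨h1, h2⟩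
        · refine ⟨0, s, Or.inr ⟨rfl, Or.inr ⟨y, z, fun x _ hx => hy.trans (hk1 x hx),
            Or.inl ⟨h1, (hs' z).2 rfl⟩⟩⟩, ?_, ?_⟩
          · intro x hx; exact absurd hx (not_mem_zero x)
          · intro x hx
            rw [(hs' x).1 hx]; exact h2
        · refine ⟨s, 0, Or.inr ⟨rfl, Or.inr ⟨y, z, fun x _ hx => hy.trans (hk1 x hx),
            Or.inr ⟨h1, (hs' z).2 rfl⟩⟩⟩, ?_, ?_⟩
          · intro x hx
            rw [(hs' x).1 hx]; exact h2
          · intro x hx; exact absurd hx (not_mem_zero x)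
      · push Not at hne
        exact ⟨0, 0, Or.inr ⟨rfl, Or.inl fun x _ => hne x⟩,
          fun x hx => absurd hx (not_mem_zero x), fun x hx => absurd hx (not_mem_zero x)⟩
    · -- i = 1
      obtain ⟨n, hn1, hn2⟩ := exists_max K
      have hn : n ∈ omega MM := by
        rcases hn2 with rfl | h
        · exact ⟨0, Nat.cast_zero⟩
        · rcases hK h with ⟨_, h⟩ | ⟨h, _⟩
          · exact h
          · exact absurd h.symm zero_ne_one_MM
      obtain ⟨T, z, hT, hz⟩ := (hO.1 n).1 hn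
      exact ⟨0, 0, Or.inl ⟨rfl, n, T, z, hT, hz, fun x _ hx => hn1 x hx⟩,
        fun x hx => absurd hx (not_mem_zero x), fun x hx => absurd hx (not_mem_zero x)⟩
  · rintro ⟨p, q, hΦ, hp, hq⟩ x hx
    have hxK : Mem x K := hx
    rcases hΦ with ⟨h1, n, T, z, hT, hz, hK⟩ | ⟨h0, hK⟩
    · have h1' : i = 1 := h1
      have hn : n ∈ omega MM := (hO.1 n).2 ⟨T, z, hT, hz⟩
      left
      refine ⟨h1', ?_⟩
      by_contra hc
      have := infl_of_not_omega hc
      have hxn : x ≤ n := hK x (mem_lt hxK).le hxK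
      exact not_omega_of_infl (Infl.mono this hxn) hn
    · have h0' : i = 0 := h0
      right
      refine ⟨h0', ?_⟩
      rcases hK with hK | ⟨y, z, hK, hz⟩
      · exact absurd hxK (hK x (mem_lt hxK).le)
      · have hy : Infl y := by
          apply hinf y z
          rcases hz with ⟨h1, h2⟩ | ⟨h1, h2⟩
          · exact Or.inl ⟨h1, hq h2⟩
          · exact Or.inr ⟨h1, hp h2⟩
        exact not_omega_of_infl (Infl.mono hy (hK x (mem_lt hxK).le hxK))

end H87

end Pool.Agent.BSig
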