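import Pool.Agent.Helper37_BSig.Stmts

/-!
# Module RedXor
-/

namespace Pool.Agent.BSig

open Filter Cardinal

namespace H87X

theorem not_mem_zero (x : MM) : ¬ Mem x 0 := fun h => absurd (mem_lt h) (not_lt.2 (PAExp.zero_le' x))

theorem zero_ne_one_MM : (0 : MM) ≠ 1 := PAExp.zero_ne_one'

theorem two_mk : (2 : MM) = mk (fun _ => 2) (bdd_const 2) := by
  have := natCast_mk 2
  rw [← this]; norm_num

theorem two_mul_mk {f : ℕ → ℕ} (hf : Bdd f) :
    2 * mk f hf = mk (fun n => 2 * f n) (bdd_mul (bdd_const 2) hf) := by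
  rw [two_mk, mk_mul]

theorem two_mul_inj {a b : MM} (h : 2 * a = 2 * b) : a = b := by
  obtain ⟨f, hf, rfl⟩ := exists_mk a; obtain ⟨g, hg, rfl⟩ := exists_mk b
  rw [two_mul_mk, two_mul_mk, mk_eq] at h
  rw [mk_eq]
  filter_upwards [h] with n hn; omega

theorem two_mul_ne {a b : MM} : 2 * a ≠ 2 * b + 1 := by
  obtain ⟨f, hf, rfl⟩ := exists_mk a; obtain ⟨g, hg, rfl⟩ := exists_mk b
  rw [two_mul_mk, two_mul_mk, mk_one, mk_add, Ne, mk_eq]
  intro h
  obtain ⟨n, hn⟩ := h.exists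
  omega

theorem dbl {a b i j : MM} (hi : i = 0 ∨ i = 1) (hj : j = 0 ∨ j = 1)
    (h : 2 * a + i = 2 * b + j) : a = b ∧ i = j := by
  rcases hi with rfl | rfl <;> rcases hj with rfl | rfl
  · rw [add_zero, add_zero] at h; exact ⟨two_mul_inj h, rfl⟩
  · rw [add_zero] at h; exact absurd h two_mul_ne
  · rw [add_zero] at h; exact absurd h.symm two_mul_ne
  · exact ⟨two_mul_inj (PAExp.add_cancel' _ _ _ h), rfl⟩

theorem exists_half (x : MM) : ∃ K i, (i = 0 ∨ i = 1) ∧ x = 2 * K + i := by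
  obtain ⟨f, hf, rfl⟩ := exists_mk x
  have hb : Bdd (fun n => f n / 2) := bdd_of_le hf (Eventually.of_forall fun n => Nat.div_le_self _ _)
  rcases em (∀ᶠ n in (UU : Filter ℕ), f n % 2 = 0) with h | h
  · refine ⟨mk _ hb, 0, Or.inl rfl, ?_⟩
    rw [add_zero, two_mul_mk, mk_eq]
    filter_upwards [h] with n hn; omega
  · refine ⟨mk _ hb, 1, Or.inr rfl, ?_⟩
    rw [not_eventually'] at h
    rw [two_mul_mk, mk_one, mk_add, mk_eq]
    filter_upwards [h] with n hn; omega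

theorem le_two_mul_add (K i : MM) : K ≤ 2 * K + i := by
  rw [two_mul, add_assoc]; exact le_add_right' _ _

theorem mem_jn_even {G A : Set MM} {z : MM} : 2 * z ∈ jn G A ↔ z ∈ G := by
  constructor
  · rintro (⟨y, hy, h⟩ | ⟨y, hy, h⟩)
    · rw [two_mul_inj h]; exact hy
    · exact absurd h two_mul_ne
  · intro h; exact Or.inl ⟨z, h, rfl⟩

theorem mem_jn_odd {G A : Set MM} {z : MM} : 2 * z + 1 ∈ jn G A ↔ z ∈ A := by
  constructor
  · rintro (⟨y, hy, h⟩ | ⟨y, hy, h⟩)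
    · exact absurd h.symm two_mul_ne
    · rw [two_mul_inj (PAExp.add_cancel' _ _ _ h)]; exact hy
  · intro h; exact Or.inr ⟨z, h, rfl⟩

theorem exists_union (a b : MM) : ∃ e : MM, ∀ x, Mem x e ↔ Mem x a ∨ Mem x b := by
  have h : Int1 (fun x => Mem x a ∨ Mem x b) :=
    Int1.of_delta0 ((IsDelta0.mem (IsTerm.var 0) (IsTerm.param a)).or
      (IsDelta0.mem (IsTerm.var 0) (IsTerm.param b)))
  obtain ⟨e, _, he⟩ := h.code (a + b)
  refine ⟨e, fun x => ?_⟩
  rw [he]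
  constructor
  · exact fun h => h.2
  · intro h
    refine ⟨?_, h⟩
    rcases h with h | h
    · exact (mem_lt h).trans_le (le_add_right' _ _)
    · exact (mem_lt h).trans_le (le_add_left' _ _)

theorem exists_odds (K : MM) : ∃ e : MM, ∀ x, Mem x e ↔ ∃ z, Mem z K ∧ x = 2 * z + 1 := by
  have h2 : ∀ {m : ℕ} {f : (Fin m → MM) → MM}, IsTerm f → IsTerm (fun v => 2 * f v) :=
    fun h => (IsTerm.param 2).mul h
  have h21 : ∀ {m : ℕ} {f : (Fin m → MM) → MM}, IsTerm f → IsTerm (fun v => 2 * f v + 1) :=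
    fun h => (h2 h).add (IsTerm.param 1)
  have h : Int1 (fun x => ∃ z, z ≤ K ∧ (Mem z K ∧ x = 2 * z + 1)) := by
    apply Int1.of_delta0
    refine IsDelta0.ex (IsTerm.param K) ?_
    exact (IsDelta0.mem (IsTerm.var 0) (IsTerm.param K)).and
      (IsDelta0.eq (IsTerm.var 1) (h21 (IsTerm.var 0)))
  obtain ⟨e, _, he⟩ := h.code (2 * K + 1 + 1)
  refine ⟨e, fun x => ?_⟩
  rw [he]
  constructor
  · rintro ⟨_, z, _, h⟩; exact ⟨z, h⟩
  · rintro ⟨z, hz, rfl⟩
    refine ⟨?_, z, (mem_lt hz).le, hz, rfl⟩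
    have h3 : 2 * z ≤ 2 * K := by
      have := PAExp.mul_le_mul' _ _ 2 (mem_lt hz).le
      rwa [mul_comm z 2, mul_comm K 2] at this
    have h4 : 2 * z + 1 ≤ 2 * K + 1 := PAExp.add_le_add' _ _ 1 h3
    exact h4.trans_lt ((PAExp.discrete _ _).2 le_rfl)

/-- the literal `(x, b)` of the even part (`b = 1`: in `p`, `b = 0`: in `q`) -/
def GLt (x b p q : MM) : Prop := (b = 1 ∧ Mem (2 * x) p) ∨ (b = 0 ∧ Mem (2 * x) q)
/-- the literal `(x, b)` of the odd part -/
def AL (x b p q : MM) : Prop := (b = 1 ∧ Mem (2 * x + 1) p) ∨ (b = 0 ∧ Mem (2 * x + 1) q)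

/-- the condition at `x` -/
def CX (x i p q : MM) : Prop := ∃ K, K ≤ x ∧ ∃ j, j ≤ x ∧ ∃ i', i' ≤ 1 ∧ ∃ j', j' ≤ 1 ∧
  (((j = 0 ∨ j = 1) ∧ x = 2 * K + j) ∧ (i + i' = 1 ∧ j + j' = 1) ∧
  ((GLt x i p q ∧ ∃ z, z ≤ K ∧ (Mem z K ∧ AL z j' p q)) ∨
    (GLt x i' p q ∧ ∀ z, z ≤ K → Mem z K → AL z j p q)))

theorem AL.mono {x b p q p' q' : MM} (hp : ∀ u, Mem u p → Mem u p') (hq : ∀ u, Mem u q → Mem u q')
    (h : AL x b p q) : AL x b p' q' := by
  rcases h with ⟨h1, h2⟩ | ⟨h1, h2⟩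
  · exact Or.inl ⟨h1, hp _ h2⟩
  · exact Or.inr ⟨h1, hq _ h2⟩

theorem GLt.mono {x b p q p' q' : MM} (hp : ∀ u, Mem u p → Mem u p') (hq : ∀ u, Mem u q → Mem u q')
    (h : GLt x b p q) : GLt x b p' q' := by
  rcases h with ⟨h1, h2⟩ | ⟨h1, h2⟩
  · exact Or.inl ⟨h1, hp _ h2⟩
  · exact Or.inr ⟨h1, hq _ h2⟩

theorem CX.mono {x i p q p' q' : MM} (hp : ∀ u, Mem u p → Mem u p') (hq : ∀ u, Mem u q → Mem u q')
    (h : CX x i p q) : CX x i p' q' := by
  obtain ⟨K, hK, j, hj, i', hi', j', hj', h1, h2, h3⟩ := h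
  refine ⟨K, hK, j, hj, i', hi', j', hj', h1, h2, ?_⟩
  rcases h3 with ⟨h4, z, hz, hzK, h5⟩ | ⟨h4, h5⟩
  · exact Or.inl ⟨h4.mono hp hq, z, hz, hzK, h5.mono hp hq⟩
  · exact Or.inr ⟨h4.mono hp hq, fun z hz hzK => (h5 z hz hzK).mono hp hq⟩

theorem isDelta0_GLt {n : ℕ} {x b p q : (Fin n → MM) → MM} (hx : IsTerm x) (hb : IsTerm b)
    (hp : IsTerm p) (hq : IsTerm q) : IsDelta0 (fun v => GLt (x v) (b v) (p v) (q v)) :=
  ((IsDelta0.eq hb (IsTerm.param 1)).and (IsDelta0.mem ((IsTerm.param 2).mul hx) hp)).or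
    ((IsDelta0.eq hb (IsTerm.param 0)).and (IsDelta0.mem ((IsTerm.param 2).mul hx) hq))

theorem isDelta0_AL {n : ℕ} {x b p q : (Fin n → MM) → MM} (hx : IsTerm x) (hb : IsTerm b)
    (hp : IsTerm p) (hq : IsTerm q) : IsDelta0 (fun v => AL (x v) (b v) (p v) (q v)) :=
  ((IsDelta0.eq hb (IsTerm.param 1)).and
      (IsDelta0.mem (((IsTerm.param 2).mul hx).add (IsTerm.param 1)) hp)).or
    ((IsDelta0.eq hb (IsTerm.param 0)).and
      (IsDelta0.mem (((IsTerm.param 2).mul hx).add (IsTerm.param 1)) hq))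

theorem isDelta0_CX {n : ℕ} {x i p q : (Fin n → MM) → MM} (hx : IsTerm x) (hi : IsTerm i)
    (hp : IsTerm p) (hq : IsTerm q) : IsDelta0 (fun v => CX (x v) (i v) (p v) (q v)) := by
  refine IsDelta0.ex hx ?_
  refine IsDelta0.ex hx.tail ?_
  refine IsDelta0.ex (IsTerm.param 1) ?_
  refine IsDelta0.ex (IsTerm.param 1) ?_
  -- 0 = j', 1 = i', 2 = j, 3 = K
  refine IsDelta0.and (IsDelta0.and ((IsDelta0.eq (IsTerm.var 2) (IsTerm.param 0)).or
    (IsDelta0.eq (IsTerm.var 2) (IsTerm.param 1)))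
    (IsDelta0.eq hx.tail.tail.tail.tail (((IsTerm.param 2).mul (IsTerm.var 3)).add (IsTerm.var 2)))) ?_
  refine IsDelta0.and (IsDelta0.and (IsDelta0.eq (hi.tail.tail.tail.tail.add (IsTerm.var 1))
    (IsTerm.param 1)) (IsDelta0.eq ((IsTerm.var 2).add (IsTerm.var 0)) (IsTerm.param 1))) ?_
  refine IsDelta0.or (IsDelta0.and (isDelta0_GLt hx.tail.tail.tail.tail hi.tail.tail.tail.tail
    hp.tail.tail.tail.tail hq.tail.tail.tail.tail) ?_) (IsDelta0.and (isDelta0_GLt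
    hx.tail.tail.tail.tail (IsTerm.var 1) hp.tail.tail.tail.tail hq.tail.tail.tail.tail) ?_)
  · refine IsDelta0.ex (IsTerm.var 3) ?_
    exact (IsDelta0.mem (IsTerm.var 0) (IsTerm.var 4)).and (isDelta0_AL (IsTerm.var 0)
      (IsTerm.var 1) hp.tail.tail.tail.tail.tail hq.tail.tail.tail.tail.tail)
  · refine IsDelta0.all (IsTerm.var 3) ?_
    exact (IsDelta0.mem (IsTerm.var 0) (IsTerm.var 4)).imp (isDelta0_AL (IsTerm.var 0)
      (IsTerm.var 3) hp.tail.tail.tail.tail.tail hq.tail.tail.tail.tail.tail)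

/-- bits -/
theorem bit_add {i j : MM} (hi : i = 0 ∨ i = 1) (h : i + j = 1) : (i = 0 ∧ j = 1) ∨ (i = 1 ∧ j = 0) := by
  rcases hi with rfl | rfl
  · left; rw [zero_add] at h; exact ⟨rfl, h⟩
  · right
    refine ⟨rfl, ?_⟩
    have h2 : j + 1 = 0 + 1 := by rw [zero_add, add_comm]; exact h
    exact PAExp.add_cancel' _ _ _ h2

theorem exists_compl {i : MM} (hi : i = 0 ∨ i = 1) : ∃ i', i' ≤ 1 ∧ i + i' = 1 ∧ (i' = 0 ∨ i' = 1) := by
  rcases hi with rfl | rfl
  · exact ⟨1, le_rfl, zero_add _, Or.inr rfl⟩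
  · exact ⟨0, PAExp.zero_le' _, add_zero _, Or.inl rfl⟩

theorem mem_sgn_compl {A : Set MM} {i i' : MM} (hi : i = 0 ∨ i = 1) (h : i + i' = 1) (z : MM) :
    z ∈ sgn A i' ↔ z ∉ sgn A i := by
  rcases bit_add hi h with ⟨rfl, rfl⟩ | ⟨rfl, rfl⟩
  · constructor
    · rintro (⟨_, h1⟩ | ⟨h1, _⟩)
      · rintro (⟨h2, _⟩ | ⟨_, h2⟩)
        · exact zero_ne_one_MM h2
        · exact h2 h1
      · exact absurd h1.symm zero_ne_one_MM
    · intro h1
      left
      refine ⟨rfl, ?_⟩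
      by_contra hc
      exact h1 (Or.inr ⟨rfl, hc⟩)
  · constructor
    · rintro (⟨h1, _⟩ | ⟨_, h1⟩)
      · exact absurd h1 zero_ne_one_MM
      · rintro (⟨_, h2⟩ | ⟨h2, _⟩)
        · exact h1 h2
        · exact zero_ne_one_MM h2.symm
    · intro h1
      right
      refine ⟨rfl, ?_⟩
      intro hc
      exact h1 (Or.inl ⟨rfl, hc⟩)

theorem fact_iff {A : Set MM} {x K j : MM} (hj : j = 0 ∨ j = 1) (hx : x = 2 * K + j) :
    Fact A x ↔ decode K ⊆ sgn A j := by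
  constructor
  · rintro ⟨K', j', h1, h2, h3⟩
    obtain ⟨e1, e2⟩ := dbl hj h2 (hx.symm.trans h1)
    rw [e1, e2]; exact h3
  · intro h
    exact ⟨K, j, hx, hj, h⟩

/-- soundness of the literals -/
theorem GLt.sound {G A : Set MM} {x b p q : MM} (hp : decode p ⊆ jn G A) (hq : decode q ⊆ (jn G A)ᶜ)
    (h : GLt x b p q) : x ∈ sgn G b := by
  rcases h with ⟨h1, h2⟩ | ⟨h1, h2⟩
  · exact Or.inl ⟨h1, mem_jn_even.1 (hp h2)⟩
  · exact Or.inr ⟨h1, fun h => hq h2 (mem_jn_even.2 h)⟩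

theorem AL.sound {G A : Set MM} {x b p q : MM} (hp : decode p ⊆ jn G A) (hq : decode q ⊆ (jn G A)ᶜ)
    (h : AL x b p q) : x ∈ sgn A b := by
  rcases h with ⟨h1, h2⟩ | ⟨h1, h2⟩
  · exact Or.inl ⟨h1, mem_jn_odd.1 (hp h2)⟩
  · exact Or.inr ⟨h1, fun h => hq h2 (mem_jn_odd.2 h)⟩

/-- completeness: a true literal of the even part has a certificate -/
theorem exists_GLt {G A : Set MM} {x b : MM} (h : x ∈ sgn G b) :
    ∃ p q, decode p ⊆ jn G A ∧ decode q ⊆ (jn G A)ᶜ ∧ GLt x b p q := by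
  obtain ⟨s, hs⟩ := exists_code_finset {2 * x}
  have hs' : ∀ y, Mem y s ↔ y = 2 * x := fun y => by rw [hs]; simp
  rcases h with ⟨h1, h2⟩ | ⟨h1, h2⟩
  · refine ⟨s, 0, ?_, fun y hy => absurd hy (not_mem_zero y), Or.inl ⟨h1, (hs' _).2 rfl⟩⟩
    intro y hy
    rw [(hs' y).1 hy]; exact mem_jn_even.2 h2
  · refine ⟨0, s, fun y hy => absurd hy (not_mem_zero y), ?_, Or.inr ⟨h1, (hs' _).2 rfl⟩⟩
    intro y hy
    rw [(hs' y).1 hy]; exact fun h => h2 (mem_jn_even.1 h)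

theorem exists_AL {G A : Set MM} {K b : MM} (h : decode K ⊆ sgn A b) (hb : b = 0 ∨ b = 1) :
    ∃ p q, decode p ⊆ jn G A ∧ decode q ⊆ (jn G A)ᶜ ∧ ∀ z, Mem z K → AL z b p q := by
  obtain ⟨s, hs⟩ := exists_odds K
  rcases hb with rfl | rfl
  · refine ⟨0, s, fun y hy => absurd hy (not_mem_zero y), ?_,
      fun z hz => Or.inr ⟨rfl, (hs _).2 ⟨z, hz, rfl⟩⟩⟩
    intro y hy
    obtain ⟨z, hz, rfl⟩ := (hs y).1 hy
    rcases h hz with ⟨h1, _⟩ | ⟨_, h1⟩
    · exact absurd h1 zero_ne_one_MM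
    · exact fun h => h1 (mem_jn_odd.1 h)
  · refine ⟨s, 0, ?_, fun y hy => absurd hy (not_mem_zero y),
      fun z hz => Or.inl ⟨rfl, (hs _).2 ⟨z, hz, rfl⟩⟩⟩
    intro y hy
    obtain ⟨z, hz, rfl⟩ := (hs y).1 hy
    rcases h hz with ⟨_, h1⟩ | ⟨h1, _⟩
    · exact mem_jn_odd.2 h1
    · exact absurd h1.symm zero_ne_one_MM

/-- joining certificates -/
theorem exists_join {B : Set MM} {p q p' q' : MM} (hp : decode p ⊆ B) (hq : decode q ⊆ Bᶜ)
    (hp' : decode p' ⊆ B) (hq' : decode q' ⊆ Bᶜ) : ∃ P Q, decode P ⊆ B ∧ decode Q ⊆ Bᶜ ∧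
      (∀ u, Mem u p → Mem u P) ∧ (∀ u, Mem u q → Mem u Q) ∧
      (∀ u, Mem u p' → Mem u P) ∧ (∀ u, Mem u q' → Mem u Q) := by
  obtain ⟨P, hP⟩ := exists_union p p'
  obtain ⟨Q, hQ⟩ := exists_union q q'
  refine ⟨P, Q, ?_, ?_, fun u h => (hP u).2 (Or.inl h), fun u h => (hQ u).2 (Or.inl h),
    fun u h => (hP u).2 (Or.inr h), fun u h => (hQ u).2 (Or.inr h)⟩
  · intro u hu
    rcases (hP u).1 hu with h | h
    · exact hp h
    · exact hp' h
  · intro u hu
    rcases (hQ u).1 hu with h | h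
    · exact hq h
    · exact hq' h

theorem exists_CX {A G H : Set MM} (hH : ∀ t, t ∈ H ↔ ¬ (t ∈ G ↔ Fact A t)) {x i : MM}
    (hi : i = 0 ∨ i = 1) (hx : x ∈ sgn H i) :
    ∃ p q, decode p ⊆ jn G A ∧ decode q ⊆ (jn G A)ᶜ ∧ CX x i p q := by
  obtain ⟨K, j, hj, hxK⟩ := exists_half x
  obtain ⟨i', hi'1, hi', hi'b⟩ := exists_compl hi
  obtain ⟨j', hj'1, hj', hj'b⟩ := exists_compl hj
  have hKx : K ≤ x := by rw [hxK]; exact le_two_mul_add _ _
  have hjx : j ≤ x := by rw [hxK]; exact le_add_left' _ _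
  have hf := fact_iff (A := A) hj hxK
  by_cases hF : Fact A x
  · -- G(x) = 1 - i
    have hG : x ∈ sgn G i' := by
      rw [mem_sgn_compl hi hi']
      rcases hi with rfl | rfl
      · rintro (⟨h1, _⟩ | ⟨_, h1⟩)
        · exact zero_ne_one_MM h1
        · rcases hx with ⟨h2, _⟩ | ⟨_, h2⟩
          · exact zero_ne_one_MM h2
          · apply h2; rw [hH]; intro h3; exact h1 (h3.2 hF)
      · rintro (⟨_, h1⟩ | ⟨h1, _⟩)
        · rcases hx with ⟨_, h2⟩ | ⟨h2, _⟩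
          · exact (hH x).1 h2 ⟨fun _ => hF, fun _ => h1⟩
          · exact zero_ne_one_MM h2.symm
        · exact zero_ne_one_MM h1.symm
    obtain ⟨p, q, hp, hq, h1⟩ := exists_GLt (A := A) hG
    obtain ⟨p', q', hp', hq', h2⟩ := exists_AL (G := G) (hf.1 hF) hj
    obtain ⟨P, Q, hP, hQ, m1, m2, m3, m4⟩ := exists_join hp hq hp' hq'
    exact ⟨P, Q, hP, hQ, K, hKx, j, hjx, i', hi'1, j', hj'1, ⟨hj, hxK⟩, ⟨hi', hj'⟩,
      Or.inr ⟨h1.mono m1 m2, fun z _ hz => (h2 z hz).mono m3 m4⟩⟩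
  · have hG : x ∈ sgn G i := by
      rcases hi with rfl | rfl
      · right
        refine ⟨rfl, fun hc => ?_⟩
        rcases hx with ⟨h2, _⟩ | ⟨_, h2⟩
        · exact zero_ne_one_MM h2
        · apply h2; rw [hH]; intro h3; exact hF (h3.1 hc)
      · left
        refine ⟨rfl, ?_⟩
        rcases hx with ⟨_, h2⟩ | ⟨h2, _⟩
        · by_contra hc
          exact (hH x).1 h2 ⟨fun h => absurd h hc, fun h => absurd h hF⟩
        · exact absurd h2.symm zero_ne_one_MM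
    have hz : ∃ z, Mem z K ∧ z ∈ sgn A j' := by
      rw [hf, Set.not_subset] at hF
      obtain ⟨z, hz, hz'⟩ := hF
      exact ⟨z, hz, (mem_sgn_compl hj hj' z).2 hz'⟩
    obtain ⟨z, hz, hzA⟩ := hz
    obtain ⟨s, hs⟩ := exists_code_finset {z}
    have hs' : ∀ y, Mem y s ↔ y = z := fun y => by rw [hs]; simp
    obtain ⟨p, q, hp, hq, h1⟩ := exists_GLt (A := A) hG
    have hsA : decode s ⊆ sgn A j' := by
      intro y hy
      rw [(hs' y).1 hy]; exact hzA
    obtain ⟨p', q', hp', hq', h2⟩ := exists_AL (G := G) hsA hj'b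
    obtain ⟨P, Q, hP, hQ, m1, m2, m3, m4⟩ := exists_join hp hq hp' hq'
    exact ⟨P, Q, hP, hQ, K, hKx, j, hjx, i', hi'1, j', hj'1, ⟨hj, hxK⟩, ⟨hi', hj'⟩,
      Or.inl ⟨h1.mono m1 m2, z, (mem_lt hz).le, hz, (h2 z ((hs' z).2 rfl)).mono m3 m4⟩⟩

theorem CX.sound {A G H : Set MM} (hH : ∀ t, t ∈ H ↔ ¬ (t ∈ G ↔ Fact A t)) {x i p q : MM}
    (hi : i = 0 ∨ i = 1) (hp : decode p ⊆ jn G A) (hq : decode q ⊆ (jn G A)ᶜ)
    (h : CX x i p q) : x ∈ sgn H i := by
  obtain ⟨K, _, j, _, i', _, j', _, ⟨hj, hx⟩, ⟨hi', hj'⟩, h3⟩ := h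
  have hf := fact_iff (A := A) hj hx
  rcases h3 with ⟨h4, z, _, hzK, h5⟩ | ⟨h4, h5⟩
  · have hG := h4.sound hp hq
    have hF : ¬ Fact A x := by
      rw [hf]
      intro hsub
      exact (mem_sgn_compl hj hj' z).1 (h5.sound hp hq) (hsub hzK)
    rcases hG with ⟨h6, h7⟩ | ⟨h6, h7⟩
    · left
      refine ⟨h6, ?_⟩
      rw [hH]; intro h8; exact hF (h8.1 h7)
    · right
      refine ⟨h6, ?_⟩
      rw [hH, not_not]
      exact ⟨fun h => absurd h h7, fun h => absurd h hF⟩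
  · have hG := h4.sound hp hq
    have hF : Fact A x := by
      rw [hf]
      intro z hz
      exact (h5 z (mem_lt hz).le hz).sound hp hq
    rw [mem_sgn_compl hi hi'] at hG
    rcases hi with rfl | rfl
    · right
      refine ⟨rfl, ?_⟩
      rw [hH, not_not]
      refine ⟨fun _ => hF, fun _ => ?_⟩
      by_contra hc
      exact hG (Or.inr ⟨rfl, hc⟩)
    · left
      refine ⟨rfl, ?_⟩
      rw [hH]
      intro h8
      exact hG (Or.inl ⟨rfl, h8.2 hF⟩)

theorem redXor_proof : RedXor := by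
  classical
  intro A G H hH
  constructor
  · intro hBI
    refine ⟨fun v => ∀ x, x ≤ v 0 → Mem x (v 0) → CX x (v 1) (v 2) (v 3), ?_, ?_⟩
    · apply Sig1.isSigma
      apply Sig1.of_delta0
      refine IsDelta0.all (IsTerm.var 0) ?_
      exact (IsDelta0.mem (IsTerm.var 0) (IsTerm.var 1)).imp
        (isDelta0_CX (IsTerm.var 0) (IsTerm.var 2) (IsTerm.var 3) (IsTerm.var 4))
    · intro K i hi
      constructor
      · intro hK
        have hfin : (decode K).Finite := by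
          apply hBI
          rcases hi with rfl | rfl
          · right
            intro x hx
            rcases hK hx with ⟨h, _⟩ | ⟨_, h⟩
            · exact absurd h zero_ne_one_MM
            · exact h
          · left
            intro x hx
            rcases hK hx with ⟨_, h⟩ | ⟨h, _⟩
            · exact h
            · exact absurd h.symm zero_ne_one_MM
        have key : ∀ s : Finset MM, (∀ x ∈ s, x ∈ sgn H i) → ∃ p q, decode p ⊆ jn G A ∧
            decode q ⊆ (jn G A)ᶜ ∧ ∀ x ∈ s, CX x i p q := by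
          intro s
          induction s using Finset.induction_on with
          | empty =>
            intro _
            exact ⟨0, 0, fun y hy => absurd hy (not_mem_zero y),
              fun y hy => absurd hy (not_mem_zero y), fun x hx => by simp at hx⟩
          | insert a s ha ih =>
            intro hs
            obtain ⟨p, q, hp, hq, h1⟩ := ih fun x hx => hs x (Finset.mem_insert_of_mem hx)
            obtain ⟨p', q', hp', hq', h2⟩ := exists_CX hH hi (hs a (Finset.mem_insert_self _ _))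
            obtain ⟨P, Q, hP, hQ, m1, m2, m3, m4⟩ := exists_join hp hq hp' hq'
            refine ⟨P, Q, hP, hQ, fun x hx => ?_⟩
            rcases Finset.mem_insert.1 hx with rfl | hx
            · exact h2.mono m3 m4
            · exact (h1 x hx).mono m1 m2
        obtain ⟨p, q, hp, hq, h⟩ := key hfin.toFinset (fun x hx => hK (hfin.mem_toFinset.1 hx))
        exact ⟨p, q, fun x _ hx => h x (hfin.mem_toFinset.2 hx), hp, hq⟩
      · rintro ⟨p, q, h, hp, hq⟩ x hx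
        exact CX.sound hH hi hp hq (h x (mem_lt hx).le hx)
  · refine ⟨fun v => (Mem (2 * (2 * v 0 + v 1)) (v 2) ∧ Mem (2 * (2 * v 0 + v 1) + 1) (v 3)) ∨
      (Mem (2 * (2 * v 0 + v 1)) (v 3) ∧ Mem (2 * (2 * v 0 + v 1) + 1) (v 2)), ?_, ?_⟩
    · apply Sig1.isSigma
      apply Sig1.of_delta0
      have ht : IsTerm (fun v : Fin 4 → MM => 2 * (2 * v 0 + v 1)) :=
        (IsTerm.param 2).mul (((IsTerm.param 2).mul (IsTerm.var 0)).add (IsTerm.var 1))
      exact ((IsDelta0.mem ht (IsTerm.var 2)).and (IsDelta0.mem (ht.add (IsTerm.param 1))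
        (IsTerm.var 3))).or ((IsDelta0.mem ht (IsTerm.var 3)).and
        (IsDelta0.mem (ht.add (IsTerm.param 1)) (IsTerm.var 2)))
    · intro K i hi
      have hf : Fact A (2 * K + i) ↔ decode K ⊆ sgn A i := fact_iff hi rfl
      rw [← hf]
      have hHt := hH (2 * K + i)
      constructor
      · intro hF
        by_cases hG : 2 * K + i ∈ G
        · have hn : 2 * K + i ∉ H := by
            rw [hHt, not_not]; exact ⟨fun _ => hF, fun _ => hG⟩
          obtain ⟨p, hp⟩ := exists_code_finset {2 * (2 * K + i)}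
          obtain ⟨q, hq⟩ := exists_code_finset {2 * (2 * K + i) + 1}
          refine ⟨p, q, Or.inl ⟨(hp _).2 (by simp), (hq _).2 (by simp)⟩, ?_, ?_⟩
          · intro y hy
            have : y = 2 * (2 * K + i) := by simpa using (hp y).1 hy
            rw [this]; exact mem_jn_even.2 hG
          · intro y hy
            have : y = 2 * (2 * K + i) + 1 := by simpa using (hq y).1 hy
            rw [this]; exact fun h => hn (mem_jn_odd.1 h)
        · have hn : 2 * K + i ∈ H := by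
            rw [hHt]; intro h; exact hG (h.2 hF)
          obtain ⟨p, hp⟩ := exists_code_finset {2 * (2 * K + i) + 1}
          obtain ⟨q, hq⟩ := exists_code_finset {2 * (2 * K + i)}
          refine ⟨p, q, Or.inr ⟨(hq _).2 (by simp), (hp _).2 (by simp)⟩, ?_, ?_⟩
          · intro y hy
            have : y = 2 * (2 * K + i) + 1 := by simpa using (hp y).1 hy
            rw [this]; exact mem_jn_odd.2 hn
          · intro y hy
            have : y = 2 * (2 * K + i) := by simpa using (hq y).1 hy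
            rw [this]; exact fun h => hG (mem_jn_even.1 h)
      · rintro ⟨p, q, h, hp, hq⟩
        rcases h with ⟨h1, h2⟩ | ⟨h1, h2⟩
        · have hG : 2 * K + i ∈ G := mem_jn_even.1 (hp h1)
          have hn : 2 * K + i ∉ H := fun h => hq h2 (mem_jn_odd.2 h)
          rw [hHt, not_not] at hn
          exact hn.1 hG
        · have hG : 2 * K + i ∉ G := fun h => hq h1 (mem_jn_even.2 h)
          have hn : 2 * K + i ∈ H := mem_jn_odd.1 (hp h2)
          rw [hHt] at hn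
          by_contra hc
          exact hn ⟨fun h => absurd h hG, fun h => absurd h hc⟩

end H87X

end Pool.Agent.BSig
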